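import Pool.Agent.H41.AV.Defs

set_option autoImplicit false

namespace Pool.Agent.H41.AV

open Equiv Finset

theorem asy (hg : S_GOOD) (hh : S_HALL) : S_ASY := by
  intro ε hε
  by_cases hε1 : ε ≤ 1
  · obtain ⟨η, B, n₁, hη, hB, H⟩ := hh ε hε hε1
    obtain ⟨n₀, K⟩ := hg ε η B hε hε1 hη hB
    refine ⟨max n₀ n₁, ?_⟩
    intro G _ _ _ A hn hA
    obtain ⟨ρ, τ, h1, h2, h3⟩ := K G A (le_trans (le_max_left _ _) hn) hA
    obtain ⟨F, hF⟩ := H G A ρ τ (le_trans (le_max_right _ _) hn) hA h1 h2 h3
    refine ⟨fun i j => F.symm (τ j - ρ i), ?_, ?_, ?_⟩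
    · intro i j j' h
      have h' := F.symm.injective h
      exact τ.injective (sub_left_inj.1 h')
    · intro j i i' h
      have h' := F.symm.injective h
      exact ρ.injective (sub_right_inj.1 h')
    · intro i j h
      have hx := hF (F.symm (τ j - ρ i))
      unfold cnt at hx
      rw [Finset.card_eq_zero] at hx
      have : i ∈ (univ.filter fun i' => A i' (τ.symm (ρ i' + F (F.symm (τ j - ρ i)))) =
          some (F.symm (τ j - ρ i))) := by
        rw [Finset.mem_filter]
        refine ⟨Finset.mem_univ _, ?_⟩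
        rw [Equiv.apply_symm_apply, add_sub_cancel, Equiv.symm_apply_apply]
        exact h
      rw [hx] at this
      exact absurd this (Finset.notMem_empty _)
  · refine ⟨1, ?_⟩
    intro G _ _ _ A hn hA
    exfalso
    have hx := hA 0
    have h1 : (1 : ℝ) ≤ Fintype.card G := by exact_mod_cast hn
    have h2 : (0 : ℝ) ≤ ((cells A (0 : G)).card : ℝ) := Nat.cast_nonneg _
    push Not at hε1
    nlinarith

end Pool.Agent.H41.AV
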