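import Mathlib

set_option autoImplicit false

/-!
# Latin squares avoiding an array in which every symbol occurs at most `(1 - ε) n` times
-/

namespace Pool.Agent.H41.AV

open Equiv Finset
open scoped Nat

section

variable {G : Type} [AddCommGroup G] [Fintype G] [DecidableEq G]

/-- the cells of the array `A` with the symbol `x` -/
def cells (A : G → G → Option G) (x : G) : Finset (G × G) :=
  univ.filter fun p => A p.1 p.2 = some x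

/-- the number of rows `i` whose cell in the class `y`, i.e. the cell `(i, j)` with
`τ j = ρ i + y`, has the symbol `x` -/
def cnt (A : G → G → Option G) (ρ τ : Perm G) (x y : G) : ℕ :=
  (univ.filter fun i => A i (τ.symm (ρ i + y)) = some x).card

/-- the density of a symbol -/
noncomputable def pr (A : G → G → Option G) (x : G) : ℝ :=
  ((cells A x).card : ℝ) / Fintype.card G

/-- the truncation of `cnt` -/
noncomputable def tr (B : ℕ) (A : G → G → Option G) (ρ τ : Perm G) (x y : G) : ℝ :=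
  ((min (cnt A ρ τ x y) B : ℕ) : ℝ)

noncomputable def DD (A : G → G → Option G) (ρ τ : Perm G) (y : G) : ℝ :=
  ∑ x, tr 1 A ρ τ x y

noncomputable def GG (B : ℕ) (A : G → G → Option G) (ρ τ : Perm G) (y : G) : ℝ :=
  ∑ x, pr A x * tr B A ρ τ x y

noncomputable def HH (B : ℕ) (A : G → G → Option G) (ρ τ : Perm G) (y y' : G) : ℝ :=
  ∑ x, tr B A ρ τ x y * tr B A ρ τ x y'

noncomputable def P2 (A : G → G → Option G) : ℝ := ∑ x, pr A x ^ 2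

end

/-- V1 -/
def S_MGF : Prop := ∀ (n : ℕ) (f : Perm (Fin n) → ℝ) (L lam : ℝ), 0 ≤ L →
  (∀ ρ a b, |f (ρ * swap a b) - f ρ| ≤ L) →
  ∑ ρ, Real.exp (lam * (f ρ - (∑ σ, f σ) / (n ! : ℝ))) ≤
    (n ! : ℝ) * Real.exp (n * lam ^ 2 * L ^ 2 / 2)

/-- V2 -/
def S_CONC : Prop := ∀ (α : Type) [Fintype α] [DecidableEq α] (f : Perm α → Perm α → ℝ)
  (L t : ℝ), 0 < L → 0 ≤ t → (∀ ρ τ a b, |f (ρ * swap a b) τ - f ρ τ| ≤ L) →
  (∀ ρ τ a b, |f ρ (τ * swap a b) - f ρ τ| ≤ L) →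
  ({q : Perm α × Perm α | t ≤ f q.1 q.2 -
      (∑ ρ, ∑ τ, f ρ τ) / ((Fintype.card α)! : ℝ) ^ 2}.ncard : ℝ) ≤
    Real.exp (-(t ^ 2 / (4 * Fintype.card α * L ^ 2))) * ((Fintype.card α)! : ℝ) ^ 2

/-- V3 -/
def S_PAIR : Prop := ∀ (G : Type) [AddCommGroup G] [Fintype G] [DecidableEq G]
  (i j i' j' y y' : G), (i, j) ≠ (i', j') →
  (univ.filter fun q : Perm G × Perm G => q.2 j = q.1 i + y ∧ q.2 j' = q.1 i' + y').card *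
    (Fintype.card G * (Fintype.card G - 1)) ≤ (Fintype.card G)! ^ 2

/-- V4 -/
def S_MOM : Prop := ∀ (G : Type) [AddCommGroup G] [Fintype G] [DecidableEq G]
  (A : G → G → Option G) (x : G),
  (∀ y, Fintype.card G * ∑ ρ : Perm G, ∑ τ : Perm G, cnt A ρ τ x y =
    (cells A x).card * (Fintype.card G)! ^ 2) ∧
  (∀ y y', y ≠ y' → (Fintype.card G * (Fintype.card G - 1)) *
    ∑ ρ : Perm G, ∑ τ : Perm G, cnt A ρ τ x y * cnt A ρ τ x y' ≤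
      (cells A x).card ^ 2 * (Fintype.card G)! ^ 2) ∧
  ∀ y, (Fintype.card G * (Fintype.card G - 1)) *
    ∑ ρ : Perm G, ∑ τ : Perm G, cnt A ρ τ x y * (cnt A ρ τ x y - 1) ≤
      (cells A x).card ^ 2 * (Fintype.card G)! ^ 2

/-- V5 -/
def S_MEAN : Prop := ∀ (G : Type) [AddCommGroup G] [Fintype G] [DecidableEq G]
  (A : G → G → Option G) (B : ℕ), 2 ≤ Fintype.card G → 1 ≤ B →
  (∀ x, (cells A x).card ≤ Fintype.card G) →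
  (∀ y, ∑ ρ : Perm G, ∑ τ : Perm G, DD A ρ τ y ≤
    (∑ x, pr A x) * ((Fintype.card G)! : ℝ) ^ 2) ∧
  (∀ y, (P2 A - 2 * Fintype.card G / B) * ((Fintype.card G)! : ℝ) ^ 2 ≤
    ∑ ρ : Perm G, ∑ τ : Perm G, GG B A ρ τ y) ∧
  ∀ y y', y ≠ y' → ∑ ρ : Perm G, ∑ τ : Perm G, HH B A ρ τ y y' ≤
    (P2 A + 2) * ((Fintype.card G)! : ℝ) ^ 2

/-- V6 -/
def S_LIP : Prop := ∀ (G : Type) [AddCommGroup G] [Fintype G] [DecidableEq G]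
  (A : G → G → Option G) (ρ τ : Perm G) (y a b : G),
  ∑ x, |(cnt A (ρ * swap a b) τ x y : ℝ) - cnt A ρ τ x y| ≤ 4 ∧
  ∑ x, |(cnt A ρ (τ * swap a b) x y : ℝ) - cnt A ρ τ x y| ≤ 4

/-- V7 -/
def S_LIP2 : Prop := ∀ (G : Type) [AddCommGroup G] [Fintype G] [DecidableEq G]
  (A : G → G → Option G) (B : ℕ) (ρ τ ρ' τ' : Perm G), 1 ≤ B →
  (∀ x, (cells A x).card ≤ Fintype.card G) →
  (∀ y, ∑ x, |(cnt A ρ' τ' x y : ℝ) - cnt A ρ τ x y| ≤ 4) →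
  (∀ y, |DD A ρ' τ' y - DD A ρ τ y| ≤ 8 * B) ∧
  (∀ y, |GG B A ρ' τ' y - GG B A ρ τ y| ≤ 8 * B) ∧
  ∀ y y', |HH B A ρ' τ' y y' - HH B A ρ τ y y'| ≤ 8 * B

/-- V8 -/
def S_GOOD : Prop := ∀ (ε η : ℝ) (B : ℕ), 0 < ε → ε ≤ 1 → 0 < η → 1 ≤ B → ∃ n₀ : ℕ,
  ∀ (G : Type) [AddCommGroup G] [Fintype G] [DecidableEq G] (A : G → G → Option G),
  n₀ ≤ Fintype.card G → (∀ x, ((cells A x).card : ℝ) ≤ (1 - ε) * Fintype.card G) →
  ∃ ρ τ : Perm G, (∀ y, DD A ρ τ y ≤ (1 - ε / 2) * Fintype.card G) ∧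
    (∀ y, P2 A - (2 / B + η) * Fintype.card G ≤ GG B A ρ τ y) ∧
    ∀ y y', y ≠ y' → HH B A ρ τ y y' ≤ P2 A + η * Fintype.card G

/-- V9 -/
def S_QUAD : Prop := ∀ (G : Type) [Fintype G] [DecidableEq G] (c : G → G → ℝ) (p : G → ℝ)
  (S T : Finset G) (B ε δ₁ δ₂ : ℝ), 0 < ε → (∀ x, 0 ≤ p x ∧ p x ≤ 1 - ε) →
  (∀ x y, 0 ≤ c x y ∧ c x y ≤ B) → (∀ x ∈ S, ∀ y ∈ T, 1 ≤ c x y) →
  (∀ y ∈ T, ∑ x, p x ^ 2 - δ₁ ≤ ∑ x, p x * c x y) →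
  (∀ y ∈ T, ∀ y' ∈ T, y ≠ y' → ∑ x, c x y * c x y' ≤ ∑ x, p x ^ 2 + δ₂) →
  0 ≤ δ₁ → 0 ≤ δ₂ →
  (S.card : ℝ) * (ε * T.card) ^ 2 ≤
    (δ₂ + 2 * δ₁) * (T.card : ℝ) ^ 2 + Fintype.card G * B ^ 2 * T.card

/-- V10 -/
def S_HALL : Prop := ∀ ε : ℝ, 0 < ε → ε ≤ 1 → ∃ (η : ℝ) (B n₁ : ℕ), 0 < η ∧ 1 ≤ B ∧
  ∀ (G : Type) [AddCommGroup G] [Fintype G] [DecidableEq G] (A : G → G → Option G)
  (ρ τ : Perm G), n₁ ≤ Fintype.card G →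
  (∀ x, ((cells A x).card : ℝ) ≤ (1 - ε) * Fintype.card G) →
  (∀ y, DD A ρ τ y ≤ (1 - ε / 2) * Fintype.card G) →
  (∀ y, P2 A - (2 / B + η) * Fintype.card G ≤ GG B A ρ τ y) →
  (∀ y y', y ≠ y' → HH B A ρ τ y y' ≤ P2 A + η * Fintype.card G) →
  ∃ F : Perm G, ∀ x, cnt A ρ τ x (F x) = 0

/-- V11 -/
def S_ASY : Prop := ∀ ε : ℝ, 0 < ε → ∃ n₀ : ℕ,
  ∀ (G : Type) [AddCommGroup G] [Fintype G] [DecidableEq G] (A : G → G → Option G),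
  n₀ ≤ Fintype.card G → (∀ x, ((cells A x).card : ℝ) ≤ (1 - ε) * Fintype.card G) →
  ∃ L : G → G → G, (∀ i, Function.Injective (L i)) ∧
    (∀ j, Function.Injective fun i => L i j) ∧ ∀ i j, A i j ≠ some (L i j)

/-- V12 -/
def S_FINAL : Prop := ∀ ε : ℝ, 0 < ε → ∃ n₀ : ℕ, ∀ n : ℕ, n₀ ≤ n →
  ∀ A : Fin n → Fin n → Fin (n + 1),
  (∀ s : Fin (n + 1), s ≠ 0 →
    ((univ.filter fun p : Fin n × Fin n => A p.1 p.2 = s).card : ℝ) ≤ (1 - ε) * n) →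
  ∃ L : Fin n → Fin n → Fin n, (∀ i, Function.Injective (L i)) ∧
    (∀ j, Function.Injective (fun i => L i j)) ∧ ∀ i j, (A i j).val ≠ (L i j).val + 1

end Pool.Agent.H41.AV
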