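import Pool.Agent.H41.AV.Defs

set_option autoImplicit false

namespace Pool.Agent.H41.AVQ

open Equiv Finset Pool.Agent.H41.AV
open scoped Nat

lemma union_bound {α I : Type} [Fintype α] [Fintype I] (S : I → Set α) (c : ℝ)
    (h : ∀ i, ((S i).ncard : ℝ) ≤ c) (hlt : (Fintype.card I : ℝ) * c < Fintype.card α) :
    ∃ q, ∀ i, q ∉ S i := by
  classical
  by_contra hno
  push Not at hno
  have h1 : (univ : Finset α) ⊆ (univ : Finset I).biUnion (fun i => univ.filter (fun q => q ∈ S i)) := by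
    intro q _
    obtain ⟨i, hi⟩ := hno q
    exact mem_biUnion.2 ⟨i, mem_univ _, mem_filter.2 ⟨mem_univ _, hi⟩⟩
  have h2 := (card_le_card h1).trans card_biUnion_le
  have h3 : ∀ i, (univ.filter (fun q => q ∈ S i)).card = (S i).ncard := by
    intro i
    rw [Set.ncard_eq_toFinset_card' (S i)]
    congr 1
    ext q
    simp
  have h4 : (Fintype.card α : ℝ) ≤ ∑ i : I, ((S i).ncard : ℝ) := by
    rw [card_univ] at h2
    have h5 : ((Fintype.card α : ℕ) : ℝ) ≤ ((∑ i : I, (univ.filter (fun q => q ∈ S i)).card : ℕ) : ℝ) := by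
      exact_mod_cast h2
    refine h5.trans (le_of_eq ?_)
    push_cast
    exact sum_congr rfl (fun i _ => by rw [h3 i])
  have h6 : ∑ i : I, ((S i).ncard : ℝ) ≤ ∑ _i : I, c := sum_le_sum (fun i _ => h i)
  rw [sum_const, card_univ, nsmul_eq_mul] at h6
  linarith

lemma small (b : ℝ) (hb : 0 < b) : ∃ n₀ : ℕ, ∀ n : ℕ, n₀ ≤ n → 0 < n →
    ((n : ℝ) + ((n : ℝ) + (n : ℝ) * n)) * Real.exp (-(b * n)) < 1 := by
  obtain ⟨N, hN⟩ := exists_nat_gt (18 / b ^ 3)
  refine ⟨N, fun n hn hn0 => ?_⟩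
  have h1 : (1 : ℝ) ≤ n := by exact_mod_cast hn0
  have h2 : 18 / b ^ 3 < n := lt_of_lt_of_le hN (by exact_mod_cast hn)
  have h3 : 18 < n * b ^ 3 := by
    rwa [div_lt_iff₀ (by positivity)] at h2
  have h4 := Real.pow_div_factorial_le_exp (b * n) (by positivity) 3
  have h5 : ((3 ! : ℕ) : ℝ) = 6 := by norm_num [Nat.factorial]
  rw [h5] at h4
  have h6 : (n : ℝ) + ((n : ℝ) + (n : ℝ) * n) ≤ 3 * (n : ℝ) ^ 2 := by nlinarith
  have h7 : 3 * (n : ℝ) ^ 2 < Real.exp (b * n) := by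
    refine lt_of_lt_of_le ?_ h4
    have h8 : 18 * (n : ℝ) ^ 2 < (n * b ^ 3) * (n : ℝ) ^ 2 := by
      apply mul_lt_mul_of_pos_right h3
      positivity
    have h9 : (b * n) ^ 3 = (n * b ^ 3) * (n : ℝ) ^ 2 := by ring
    rw [h9]
    linarith
  rw [Real.exp_neg, ← div_eq_mul_inv, div_lt_one (Real.exp_pos _)]
  linarith

theorem good' (hc : S_CONC) (hm : S_MEAN) (hl : S_LIP) (hl2 : S_LIP2) (ε η : ℝ) (B : ℕ)
    (hε : 0 < ε) (hε1 : ε ≤ 1) (hη : 0 < η) (hB : 1 ≤ B)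
    (G : Type) [AddCommGroup G] [Fintype G] [DecidableEq G] (A : G → G → Option G)
    (hn3 : 2 ≤ Fintype.card G) (hηn' : 2 ≤ η / 2 * Fintype.card G)
    (hsm : ((Fintype.card G : ℝ) + ((Fintype.card G : ℝ) + (Fintype.card G : ℝ) * Fintype.card G)) *
      Real.exp (-((min (ε / 2) (η / 2)) ^ 2 / (256 * B ^ 2) * Fintype.card G)) < 1)
    (hA : ∀ x, ((cells A x).card : ℝ) ≤ (1 - ε) * Fintype.card G) :
    ∃ ρ τ : Perm G, (∀ y, DD A ρ τ y ≤ (1 - ε / 2) * Fintype.card G) ∧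
    (∀ y, P2 A - (2 / B + η) * Fintype.card G ≤ GG B A ρ τ y) ∧
    ∀ y y', y ≠ y' → HH B A ρ τ y y' ≤ P2 A + η * Fintype.card G := by
  have hBr : (1 : ℝ) ≤ B := by exact_mod_cast hB
  set c : ℝ := min (ε / 2) (η / 2) with hcdef
  have hc0 : 0 < c := lt_min (by linarith) (by linarith)
  have hc1 : c ≤ ε / 2 := min_le_left _ _
  have hc2 : c ≤ η / 2 := min_le_right _ _
  set n : ℕ := Fintype.card G with hndef
  have hn0 : 0 < n := by omega
  have hnr : (0 : ℝ) < n := by exact_mod_cast hn0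
  have hηn : 2 ≤ η / 2 * n := hηn'
  have hcell : ∀ x, (cells A x).card ≤ n := by
    intro x
    have h1 := hA x
    have h2 : ((cells A x).card : ℝ) ≤ n := by nlinarith
    exact_mod_cast h2
  have hF : (0 : ℝ) < (n ! : ℝ) ^ 2 := by positivity
  have hpr : ∑ x, pr A x ≤ (1 - ε) * n := by
    have h1 : ∀ x ∈ (univ : Finset G), pr A x ≤ 1 - ε := by
      intro x _
      unfold pr
      rw [div_le_iff₀ hnr]
      exact hA x
    have h2 := sum_le_card_nsmul univ (fun x => pr A x) (1 - ε) h1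
    rw [card_univ, nsmul_eq_mul] at h2
    linarith [mul_comm (1 - ε) (n : ℝ)]
  obtain ⟨m1, m2, m3⟩ := hm G A B hn3 hB hcell
  set E : ℝ := Real.exp (-((c * n) ^ 2 / (4 * n * (8 * B : ℝ) ^ 2))) * (n ! : ℝ) ^ 2 with hE
  have hlipρ : ∀ (ρ τ : Perm G) (a b : G), ∀ y, ∑ x, |(cnt A (ρ * swap a b) τ x y : ℝ) - cnt A ρ τ x y| ≤ 4 :=
    fun ρ τ a b y => (hl G A ρ τ y a b).1
  have hlipτ : ∀ (ρ τ : Perm G) (a b : G), ∀ y, ∑ x, |(cnt A ρ (τ * swap a b) x y : ℝ) - cnt A ρ τ x y| ≤ 4 :=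
    fun ρ τ a b y => (hl G A ρ τ y a b).2
  have hb1 : ∀ y, ({q : Perm G × Perm G | c * n ≤ DD A q.1 q.2 y -
      (∑ ρ, ∑ τ, DD A ρ τ y) / (n ! : ℝ) ^ 2}.ncard : ℝ) ≤ E := by
    intro y
    apply hc G (fun ρ τ => DD A ρ τ y) (8 * B) (c * n) (by positivity) (by positivity)
    · intro ρ τ a b
      exact (hl2 G A B ρ τ _ τ hB hcell (hlipρ ρ τ a b)).1 y
    · intro ρ τ a b
      exact (hl2 G A B ρ τ ρ _ hB hcell (hlipτ ρ τ a b)).1 y
  have hb2 : ∀ y, ({q : Perm G × Perm G | c * n ≤ -GG B A q.1 q.2 y -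
      (∑ ρ, ∑ τ, -GG B A ρ τ y) / (n ! : ℝ) ^ 2}.ncard : ℝ) ≤ E := by
    intro y
    apply hc G (fun ρ τ => -GG B A ρ τ y) (8 * B) (c * n) (by positivity) (by positivity)
    · intro ρ τ a b
      have h1 := (hl2 G A B ρ τ _ τ hB hcell (hlipρ ρ τ a b)).2.1 y
      have h2 : |-GG B A (ρ * swap a b) τ y - -GG B A ρ τ y| = |GG B A (ρ * swap a b) τ y - GG B A ρ τ y| := by
        rw [← abs_neg]; congr 1; ring
      rw [h2]; exact h1
    · intro ρ τ a b
      have h1 := (hl2 G A B ρ τ ρ _ hB hcell (hlipτ ρ τ a b)).2.1 y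
      have h2 : |-GG B A ρ (τ * swap a b) y - -GG B A ρ τ y| = |GG B A ρ (τ * swap a b) y - GG B A ρ τ y| := by
        rw [← abs_neg]; congr 1; ring
      rw [h2]; exact h1
  have hb3 : ∀ y y', ({q : Perm G × Perm G | c * n ≤ HH B A q.1 q.2 y y' -
      (∑ ρ, ∑ τ, HH B A ρ τ y y') / (n ! : ℝ) ^ 2}.ncard : ℝ) ≤ E := by
    intro y y'
    apply hc G (fun ρ τ => HH B A ρ τ y y') (8 * B) (c * n) (by positivity) (by positivity)
    · intro ρ τ a b
      exact (hl2 G A B ρ τ _ τ hB hcell (hlipρ ρ τ a b)).2.2 y y'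
    · intro ρ τ a b
      exact (hl2 G A B ρ τ ρ _ hB hcell (hlipτ ρ τ a b)).2.2 y y'
  have hcount : ((Fintype.card (G ⊕ G ⊕ (G × G)) : ℕ) : ℝ) * E < (Fintype.card (Perm G × Perm G) : ℕ) := by
    have h1 : Fintype.card (G ⊕ G ⊕ (G × G)) = n + (n + n * n) := by
      simp [Fintype.card_sum, Fintype.card_prod, hndef]
    have h2 : Fintype.card (Perm G × Perm G) = n ! * n ! := by
      rw [Fintype.card_prod, Fintype.card_perm]
    rw [h1, h2]
    push_cast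
    have h3 := hsm
    have h4 : (c * n) ^ 2 / (4 * n * (8 * B : ℝ) ^ 2) = c ^ 2 / (256 * B ^ 2) * n := by
      field_simp
      ring
    rw [hE, h4]
    have h5 := mul_lt_mul_of_pos_right h3 hF
    rw [one_mul] at h5
    calc _ = ((n : ℝ) + ((n : ℝ) + (n : ℝ) * n)) * Real.exp (-(c ^ 2 / (256 * B ^ 2) * n)) * (n ! : ℝ) ^ 2 := by ring
      _ < (n ! : ℝ) ^ 2 := h5
      _ = _ := by ring
  obtain ⟨q, hq⟩ := union_bound (α := Perm G × Perm G) (I := G ⊕ G ⊕ (G × G))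
    (fun i => Sum.elim (fun y => {q : Perm G × Perm G | c * n ≤ DD A q.1 q.2 y -
      (∑ ρ, ∑ τ, DD A ρ τ y) / (n ! : ℝ) ^ 2})
      (Sum.elim (fun y => {q : Perm G × Perm G | c * n ≤ -GG B A q.1 q.2 y -
      (∑ ρ, ∑ τ, -GG B A ρ τ y) / (n ! : ℝ) ^ 2})
      (fun p => {q : Perm G × Perm G | c * n ≤ HH B A q.1 q.2 p.1 p.2 -
      (∑ ρ, ∑ τ, HH B A ρ τ p.1 p.2) / (n ! : ℝ) ^ 2})) i) E
    (by
      rintro (y | y | p)
      · exact hb1 y
      · exact hb2 y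
      · exact hb3 p.1 p.2) hcount
  refine ⟨q.1, q.2, fun y => ?_, fun y => ?_, fun y y' hy => ?_⟩
  · have h1 := hq (Sum.inl y)
    simp only [Sum.elim_inl, Set.mem_ofPred_eq, not_le] at h1
    have h2 : (∑ ρ, ∑ τ, DD A ρ τ y) / (n ! : ℝ) ^ 2 ≤ ∑ x, pr A x := by
      rw [div_le_iff₀ hF]; exact m1 y
    nlinarith
  · have h1 := hq (Sum.inr (Sum.inl y))
    simp only [Sum.elim_inl, Sum.elim_inr, Set.mem_ofPred_eq, not_le] at h1
    have h2 : P2 A - 2 * n / B ≤ (∑ ρ, ∑ τ, GG B A ρ τ y) / (n ! : ℝ) ^ 2 := by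
      rw [le_div_iff₀ hF]; exact m2 y
    have h3 : (∑ ρ, ∑ τ, -GG B A ρ τ y) = - ∑ ρ, ∑ τ, GG B A ρ τ y := by
      simp [sum_neg_distrib]
    rw [h3, neg_div] at h1
    have h4 : 2 / (B : ℝ) * n = 2 * n / B := by ring
    have h5 : (2 / (B : ℝ) + η) * n = 2 * n / B + η * n := by rw [add_mul, h4]
    rw [h5]
    nlinarith
  · have h1 := hq (Sum.inr (Sum.inr (y, y')))
    simp only [Sum.elim_inr, Set.mem_ofPred_eq, not_le] at h1
    have h2 : (∑ ρ, ∑ τ, HH B A ρ τ y y') / (n ! : ℝ) ^ 2 ≤ P2 A + 2 := by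
      rw [div_le_iff₀ hF]; exact m3 y y' hy
    nlinarith



theorem sum_cnt {G : Type} [AddCommGroup G] [Fintype G] [DecidableEq G]
    (A : G → G → Option G) (ρ τ : Perm G) (x : G) : ∑ y, cnt A ρ τ x y = (cells A x).card := by
  unfold cnt cells
  simp only [Finset.card_filter]
  rw [Finset.sum_comm, Fintype.sum_prod_type]
  refine Finset.sum_congr rfl fun i _ => ?_
  exact Equiv.sum_comp ((Equiv.addLeft (ρ i)).trans τ.symm)
    (fun j => if A i j = some x then (1 : ℕ) else 0)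

theorem hall_final {ε s t N B η : ℝ} (hε : 0 < ε) (hB : 0 < B) (hη : η = ε ^ 3 / 12)
    (hB2 : 16 / ε ^ 3 ≤ B) (hN : 4 * B ^ 2 / ε ^ 4 < N) (hs : ε * N < s) (ht : ε / 2 * N < t)
    (h : s * (ε * t) ^ 2 ≤ (η * N + 2 * ((2 / B + η) * N)) * t ^ 2 + N * B ^ 2 * t) : False := by
  have hN0 : 0 < N := lt_of_le_of_lt (by positivity) hN
  have ht0 : 0 < t := lt_of_le_of_lt (by positivity) ht
  have hs0 : 0 < s := lt_of_le_of_lt (by positivity) hs
  have h4 : 4 / B ≤ ε ^ 3 / 4 := by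
    rw [div_le_iff₀ (by positivity)] at hB2
    rw [div_le_div_iff₀ hB (by norm_num)]
    linarith
  have h1 : s * ε ^ 2 * t ≤ (ε ^ 3 / 2) * N * t + N * B ^ 2 := by
    have h2 : (s * ε ^ 2 * t) * t ≤ ((ε ^ 3 / 2) * N * t + N * B ^ 2) * t := by
      calc (s * ε ^ 2 * t) * t = s * (ε * t) ^ 2 := by ring
        _ ≤ _ := h
        _ = (3 * η + 4 / B) * (N * t ^ 2) + N * B ^ 2 * t := by ring
        _ ≤ (ε ^ 3 / 2) * (N * t ^ 2) + N * B ^ 2 * t := by
            have : 3 * η + 4 / B ≤ ε ^ 3 / 2 := by rw [hη]; linarith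
            gcongr
        _ = _ := by ring
    exact le_of_mul_le_mul_right h2 ht0
  have h5 : (ε * N) * ε ^ 2 * t < s * ε ^ 2 * t := by gcongr
  have h6 : (ε ^ 3 / 2) * t * N < B ^ 2 * N := by nlinarith
  have h7 : (ε ^ 3 / 2) * t < B ^ 2 := lt_of_mul_lt_mul_right h6 hN0.le
  have h8 : (ε ^ 3 / 2) * (ε / 2 * N) < (ε ^ 3 / 2) * t := by gcongr
  rw [div_lt_iff₀ (by positivity)] at hN
  nlinarith

theorem hall' (hq : S_QUAD) (ε : ℝ) (B : ℕ) (hε : 0 < ε) (hε1 : ε ≤ 1) (hB : 16 / ε ^ 3 ≤ (B : ℝ))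
    (G : Type) [AddCommGroup G] [Fintype G] [DecidableEq G] (A : G → G → Option G) (ρ τ : Perm G)
    (hn₁ : 4 * (B : ℝ) ^ 2 / ε ^ 4 < Fintype.card G)
    (hcell : ∀ x, ((cells A x).card : ℝ) ≤ (1 - ε) * Fintype.card G)
    (hDD : ∀ y, DD A ρ τ y ≤ (1 - ε / 2) * Fintype.card G)
    (hGG : ∀ y, P2 A - (2 / B + ε ^ 3 / 12) * Fintype.card G ≤ GG B A ρ τ y)
    (hHH : ∀ y y', y ≠ y' → HH B A ρ τ y y' ≤ P2 A + ε ^ 3 / 12 * Fintype.card G) :
    ∃ F : Perm G, ∀ x, cnt A ρ τ x (F x) = 0 := by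
  have hBpos : (0 : ℝ) < B := lt_of_lt_of_le (by positivity) hB
  have hB1 : 1 ≤ B := by exact_mod_cast hBpos
  have hN0 : (0 : ℝ) < (Fintype.card G : ℝ) := (lt_of_le_of_lt (by positivity) hn₁)
  have key : ∀ S : Finset G, S.card ≤ (S.biUnion fun x => univ.filter fun y => cnt A ρ τ x y = 0).card := by
    intro S
    obtain ⟨T, hT⟩ : ∃ T : Finset G, T = (S.biUnion fun x => univ.filter fun y => cnt A ρ τ x y = 0)ᶜ :=
      ⟨_, rfl⟩
    have hcard : (S.biUnion fun x => univ.filter fun y => cnt A ρ τ x y = 0).card + T.card =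
        Fintype.card G := by rw [hT, Finset.card_add_card_compl]
    have hTm : ∀ x ∈ S, ∀ y ∈ T, 1 ≤ cnt A ρ τ x y := by
      intro x hx y hy
      rw [hT, Finset.mem_compl, Finset.mem_biUnion] at hy
      by_contra h0
      exact hy ⟨x, hx, Finset.mem_filter.2 ⟨Finset.mem_univ _, by omega⟩⟩
    suffices hgoal : (S.card : ℝ) + T.card ≤ Fintype.card G by
      have : S.card + T.card ≤ Fintype.card G := by exact_mod_cast hgoal
      omega
    rcases S.eq_empty_or_nonempty with hS | ⟨x0, hx0⟩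
    · rw [hS]
      have : T.card ≤ Fintype.card G := Finset.card_le_univ T
      have : (T.card : ℝ) ≤ Fintype.card G := by exact_mod_cast this
      simpa using this
    rcases T.eq_empty_or_nonempty with hT0 | ⟨y0, hy0⟩
    · rw [hT0]
      have : S.card ≤ Fintype.card G := Finset.card_le_univ S
      have : (S.card : ℝ) ≤ Fintype.card G := by exact_mod_cast this
      simpa using this
    by_cases h1 : (S.card : ℝ) ≤ ε * Fintype.card G
    · have h2 : T.card ≤ (cells A x0).card := by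
        rw [← sum_cnt A ρ τ x0]
        calc T.card = ∑ _y ∈ T, 1 := by simp
          _ ≤ ∑ y ∈ T, cnt A ρ τ x0 y := Finset.sum_le_sum fun y hy => hTm x0 hx0 y hy
          _ ≤ _ := Finset.sum_le_sum_of_subset (Finset.subset_univ T)
      have h3 : (T.card : ℝ) ≤ (cells A x0).card := by exact_mod_cast h2
      have h4 := hcell x0
      linarith
    by_cases h2 : (T.card : ℝ) ≤ ε / 2 * Fintype.card G
    · have h3 : (S.card : ℝ) ≤ DD A ρ τ y0 := by
        unfold DD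
        calc (S.card : ℝ) = ∑ _x ∈ S, (1 : ℝ) := by simp
          _ ≤ ∑ x ∈ S, tr 1 A ρ τ x y0 := Finset.sum_le_sum fun x hx => by
              have h4 := hTm x hx y0 hy0
              unfold tr
              rw [min_eq_right h4]
              simp
          _ ≤ _ := Finset.sum_le_sum_of_subset_of_nonneg (Finset.subset_univ S) fun x _ _ => by
              unfold tr
              positivity
      have h4 := hDD y0
      linarith
    · exfalso
      push Not at h1 h2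
      refine hall_final (N := (Fintype.card G : ℝ)) (s := (S.card : ℝ)) (t := (T.card : ℝ)) (B := (B : ℝ))
        hε hBpos rfl hB hn₁ h1 h2 ?_
      refine hq G (fun x y => tr B A ρ τ x y) (pr A) S T B ε _ _ hε (fun x => ⟨?_, ?_⟩)
        (fun x y => ⟨?_, ?_⟩) (fun x hx y hy => ?_) (fun y _ => hGG y) (fun y _ y' _ hyy => hHH y y' hyy)
        (by positivity) (by positivity)
      · unfold pr
        positivity
      · unfold pr
        rw [div_le_iff₀ hN0]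
        exact hcell x
      · change 0 ≤ tr B A ρ τ x y
        unfold tr
        positivity
      · change tr B A ρ τ x y ≤ B
        unfold tr
        exact_mod_cast min_le_right _ _
      · change 1 ≤ tr B A ρ τ x y
        unfold tr
        have := le_min (hTm x hx y hy) hB1
        exact_mod_cast this
  obtain ⟨f, hf1, hf2⟩ := (Finset.all_card_le_biUnion_card_iff_exists_injective
    (fun x => univ.filter fun y => cnt A ρ τ x y = 0)).1 key
  refine ⟨Equiv.ofBijective f (Finite.injective_iff_bijective.1 hf1), fun x => ?_⟩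
  have := hf2 x
  rw [Finset.mem_filter] at this
  exact this.2


theorem main' (hc : S_CONC) (hm : S_MEAN) (hl : S_LIP) (hl2 : S_LIP2) (hq : S_QUAD) : ∃ n₀ : ℕ,
    ∀ (G : Type) [AddCommGroup G] [Fintype G] [DecidableEq G] (A : G → G → Option G),
    n₀ ≤ Fintype.card G →
    (∀ x, ((cells A x).card : ℝ) ≤ Fintype.card G - (Fintype.card G : ℝ) ^ (12 / 13 : ℝ)) →
    ∃ L : G → G → G, (∀ i, Function.Injective (L i)) ∧
      (∀ j, Function.Injective fun i => L i j) ∧ ∀ i j, A i j ≠ some (L i j) := by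
  obtain ⟨u₀, hu₀⟩ := exists_nat_gt (3 * ((27 ! : ℕ) : ℝ) * (42614784 : ℝ) ^ 27 + 100)
  refine ⟨u₀ ^ 13, ?_⟩
  intro G _ _ _ A hn hA
  set n : ℕ := Fintype.card G with hndef
  set u : ℝ := (n : ℝ) ^ (1 / 13 : ℝ) with hu
  have hn0 : (0 : ℝ) ≤ n := Nat.cast_nonneg _
  have hun : u ^ 13 = n := by
    rw [hu, ← Real.rpow_natCast, ← Real.rpow_mul hn0]
    norm_num
  have hu1 : (u₀ : ℝ) ≤ u := by
    have h1 : ((u₀ : ℝ)) ^ 13 ≤ n := by exact_mod_cast hn
    have h2 : (((u₀ : ℝ)) ^ 13) ^ (1 / 13 : ℝ) ≤ (n : ℝ) ^ (1 / 13 : ℝ) :=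
      Real.rpow_le_rpow (by positivity) h1 (by norm_num)
    rw [← Real.rpow_natCast, ← Real.rpow_mul (Nat.cast_nonneg _)] at h2
    norm_num at h2
    rw [hu]
    norm_num
    exact h2
  have hubig : 3 * ((27 ! : ℕ) : ℝ) * (42614784 : ℝ) ^ 27 + 100 < u := lt_of_lt_of_le hu₀ hu1
  have hu100 : 100 < u := by
    have : (0 : ℝ) ≤ 3 * ((27 ! : ℕ) : ℝ) * (42614784 : ℝ) ^ 27 := by positivity
    linarith
  have hupos : 0 < u := by linarith
  have hu12 : (n : ℝ) ^ (12 / 13 : ℝ) = u ^ 12 := by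
    rw [hu, ← Real.rpow_natCast, ← Real.rpow_mul hn0]
    norm_num
  set ε : ℝ := 1 / u with hεdef
  have hε : 0 < ε := by positivity
  have hε1 : ε ≤ 1 := by
    rw [hεdef, div_le_one hupos]; linarith
  have hA' : ∀ x, ((cells A x).card : ℝ) ≤ (1 - ε) * n := by
    intro x
    refine (hA x).trans (le_of_eq ?_)
    rw [hu12, ← hun, hεdef]
    field_simp
  set B : ℕ := ⌈16 / ε ^ 3⌉₊ with hBdef
  have hB : 16 / ε ^ 3 ≤ (B : ℝ) := Nat.le_ceil _
  have h16 : 16 / ε ^ 3 = 16 * u ^ 3 := by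
    rw [hεdef]; field_simp
  have hu3 : 1 ≤ u ^ 3 := one_le_pow₀ (by linarith)
  have hBu : (B : ℝ) ≤ 17 * u ^ 3 := by
    have h1 : (B : ℝ) < 16 / ε ^ 3 + 1 := Nat.ceil_lt_add_one (by positivity)
    rw [h16] at h1
    linarith
  have hBpos : (0 : ℝ) < B := lt_of_lt_of_le (by positivity) hB
  have hB1 : 1 ≤ B := by exact_mod_cast hBpos
  have hη : (0 : ℝ) < ε ^ 3 / 12 := by positivity
  have hε3 : ε ^ 3 = 1 / u ^ 3 := by rw [hεdef, div_pow, one_pow]
  have hn2 : 2 ≤ n := by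
    have h1 : (100 : ℝ) < u₀ := by
      have : (0 : ℝ) ≤ 3 * ((27 ! : ℕ) : ℝ) * (42614784 : ℝ) ^ 27 := by positivity
      linarith
    have h2 : 100 < u₀ := by exact_mod_cast h1
    have h3 : u₀ ≤ u₀ ^ 13 := Nat.le_self_pow (by norm_num) _
    omega
  have hηn : 2 ≤ (ε ^ 3 / 12) / 2 * (n : ℝ) := by
    rw [hε3, ← hun]
    have h1 : 1 / u ^ 3 / 12 / 2 * u ^ 13 = u ^ 10 / 24 := by field_simp; ring
    rw [h1]
    have h2 : u ≤ u ^ 10 := le_self_pow₀ (by linarith) (by norm_num)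
    linarith
  have hmin : min (ε / 2) (ε ^ 3 / 12 / 2) = ε ^ 3 / 24 := by
    rw [min_eq_right]
    · ring
    · have : ε ^ 3 ≤ ε := by
        calc ε ^ 3 ≤ ε ^ 1 := pow_le_pow_of_le_one hε.le hε1 (by norm_num)
          _ = ε := pow_one _
      linarith
  have hsm : ((n : ℝ) + ((n : ℝ) + (n : ℝ) * n)) *
      Real.exp (-((min (ε / 2) (ε ^ 3 / 12 / 2)) ^ 2 / (256 * B ^ 2) * n)) < 1 := by
    rw [hmin]
    have h1 : u / 42614784 ≤ (ε ^ 3 / 24) ^ 2 / (256 * (B : ℝ) ^ 2) * n := by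
      have h2 : (B : ℝ) ^ 2 ≤ (17 * u ^ 3) ^ 2 := pow_le_pow_left₀ hBpos.le hBu 2
      have h3 : (ε ^ 3 / 24) ^ 2 / (256 * (17 * u ^ 3) ^ 2) * n ≤
          (ε ^ 3 / 24) ^ 2 / (256 * (B : ℝ) ^ 2) * n := by
        gcongr
      refine le_trans (le_of_eq ?_) h3
      rw [hε3, ← hun]
      field_simp
      norm_num
    have h5 : 3 * (n : ℝ) ^ 2 < Real.exp (u / 42614784) := by
      have h6 := Real.pow_div_factorial_le_exp (u / 42614784) (by positivity) 27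
      refine lt_of_lt_of_le ?_ h6
      rw [lt_div_iff₀ (by positivity), div_pow, lt_div_iff₀ (by positivity), ← hun]
      have h7 : 3 * ((27 ! : ℕ) : ℝ) * (42614784 : ℝ) ^ 27 < u := by linarith
      have h8 := mul_lt_mul_of_pos_right h7 (show (0 : ℝ) < u ^ 26 by positivity)
      calc 3 * (u ^ 13) ^ 2 * ((27 ! : ℕ) : ℝ) * (42614784 : ℝ) ^ 27
          = 3 * ((27 ! : ℕ) : ℝ) * (42614784 : ℝ) ^ 27 * u ^ 26 := by ring
        _ < u * u ^ 26 := h8
        _ = u ^ 27 := by ring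
    have hn1 : (1 : ℝ) ≤ n := by
      have : 1 ≤ n := by omega
      exact_mod_cast this
    have h9 : (n : ℝ) + ((n : ℝ) + (n : ℝ) * n) ≤ 3 * (n : ℝ) ^ 2 := by nlinarith
    have h10 : Real.exp (u / 42614784) ≤
        Real.exp ((ε ^ 3 / 24) ^ 2 / (256 * (B : ℝ) ^ 2) * n) := Real.exp_le_exp.2 h1
    rw [Real.exp_neg, ← div_eq_mul_inv, div_lt_one (Real.exp_pos _)]
    linarith
  have hn₁ : 4 * (B : ℝ) ^ 2 / ε ^ 4 < n := by
    have h2 : (B : ℝ) ^ 2 ≤ (17 * u ^ 3) ^ 2 := pow_le_pow_left₀ hBpos.le hBu 2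
    have h3 : 4 * (B : ℝ) ^ 2 / ε ^ 4 ≤ 4 * (17 * u ^ 3) ^ 2 / ε ^ 4 := by gcongr
    refine lt_of_le_of_lt h3 ?_
    have h4 : 4 * (17 * u ^ 3) ^ 2 / ε ^ 4 = 1156 * u ^ 10 := by
      rw [hεdef]; field_simp; norm_num
    rw [h4, ← hun]
    have h5 : (100 : ℝ) ^ 3 ≤ u ^ 3 := pow_le_pow_left₀ (by norm_num) hu100.le 3
    have h6 : (0 : ℝ) < u ^ 10 := by positivity
    calc 1156 * u ^ 10 < 100 ^ 3 * u ^ 10 := by nlinarith
      _ ≤ u ^ 3 * u ^ 10 := by gcongr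
      _ = u ^ 13 := by ring
  obtain ⟨ρ, τ, h1, h2, h3⟩ := good' hc hm hl hl2 ε (ε ^ 3 / 12) B hε hε1 hη hB1 G A hn2 hηn hsm hA'
  obtain ⟨F, hF⟩ := hall' hq ε B hε hε1 hB G A ρ τ hn₁ hA' h1 h2 h3
  refine ⟨fun i j => F.symm (τ j - ρ i), ?_, ?_, ?_⟩
  · intro i j j' h
    have h' := F.symm.injective h
    exact τ.injective (sub_left_inj.1 h')
  · intro j i i' h
    have h' := F.symm.injective h
    exact ρ.injective (sub_right_inj.1 h')
  · intro i j h
    have hx := hF (F.symm (τ j - ρ i))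
    unfold cnt at hx
    rw [Finset.card_eq_zero] at hx
    have : i ∈ (univ.filter fun i' => A i' (τ.symm (ρ i' + F (F.symm (τ j - ρ i)))) =
        some (F.symm (τ j - ρ i))) := by
      rw [Finset.mem_filter]
      refine ⟨Finset.mem_univ _, ?_⟩
      rw [Equiv.apply_symm_apply, add_sub_cancel, Equiv.symm_apply_apply]
      exact h
    rw [hx] at this
    exact absurd this (Finset.notMem_empty _)

end Pool.Agent.H41.AVQ
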